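import Pool.Agent.Mg.F6c678b.Gf3f165

set_option autoImplicit false

namespace Pool.Agent.Results.MP_6c678b_al.AllInvolved

/-- Every finite group is a section of a finite congruence quotient of `Out (F / F''')`. -/
theorem result :
    ∀ (Q : Type) [Group Q] [Finite Q],
      ∃ K : Subgroup (FreeGroup (Fin 2) ⧸ derivedSeries (FreeGroup (Fin 2)) 3),
        K.Characteristic ∧ K.FiniteIndex ∧
        ∃ (H : Subgroup (MulAut (FreeGroup (Fin 2)))) (f : H →* Q), Function.Surjective f ∧
          ∀ σ : H,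
            (∃ g : FreeGroup (Fin 2), ∀ x : FreeGroup (Fin 2),
              (QuotientGroup.mk ((σ : MulAut (FreeGroup (Fin 2))) x * (g * x * g⁻¹)⁻¹) :
                FreeGroup (Fin 2) ⧸ derivedSeries (FreeGroup (Fin 2)) 3) ∈ K) → f σ = 1 :=
  fun Q _ _ => Pool.Agent.MP_6c678b_al.Inv.all_involved Q

end Pool.Agent.Results.MP_6c678b_al.AllInvolved
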