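import Pool.Agent.Mg.F6c678b.G1270ea

set_option autoImplicit false

namespace Pool.Agent.Results.MP_6c678b_al.NilChain

open Pool.Agent.MP_6c678b_al.Nil

/-- Let `F` be free of rank two, `N c = γ_{c+1}(F')` and `E` a normal subgroup inside `F'''`.
For every `c ≥ 1` the congruence topology of `F / (N c ⊔ E)` is strictly coarser than
that of `F / (N (c+1) ⊔ E)`. -/
theorem result :
    ∀ (E : Subgroup (FreeGroup (Fin 2))) [E.Normal], E ≤ derivedSeries (FreeGroup (Fin 2)) 3 →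
    ∀ c : ℕ, 1 ≤ c →
      (∀ K : Subgroup (FreeGroup (Fin 2) ⧸
            ((commutator (FreeGroup (Fin 2))).lowerCentralSeries c ⊔ E)),
          K.Characteristic → K.FiniteIndex →
          ∃ K' : Subgroup (FreeGroup (Fin 2) ⧸
              ((commutator (FreeGroup (Fin 2))).lowerCentralSeries (c + 1) ⊔ E)),
            K'.Characteristic ∧ K'.FiniteIndex ∧
            ∀ σ : MulAut (FreeGroup (Fin 2)),
              (∃ g : FreeGroup (Fin 2), ∀ x : FreeGroup (Fin 2),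
                (QuotientGroup.mk (σ x * (g * x * g⁻¹)⁻¹) : FreeGroup (Fin 2) ⧸
                  ((commutator (FreeGroup (Fin 2))).lowerCentralSeries (c + 1) ⊔ E)) ∈ K') →
              (∃ g : FreeGroup (Fin 2), ∀ x : FreeGroup (Fin 2),
                (QuotientGroup.mk (σ x * (g * x * g⁻¹)⁻¹) : FreeGroup (Fin 2) ⧸
                  ((commutator (FreeGroup (Fin 2))).lowerCentralSeries c ⊔ E)) ∈ K)) ∧
      (∃ K' : Subgroup (FreeGroup (Fin 2) ⧸
            ((commutator (FreeGroup (Fin 2))).lowerCentralSeries (c + 1) ⊔ E)),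
          K'.Characteristic ∧ K'.FiniteIndex ∧
          ∀ K : Subgroup (FreeGroup (Fin 2) ⧸
              ((commutator (FreeGroup (Fin 2))).lowerCentralSeries c ⊔ E)),
            K.Characteristic → K.FiniteIndex →
            ∃ σ : MulAut (FreeGroup (Fin 2)),
              (∃ g : FreeGroup (Fin 2), ∀ x : FreeGroup (Fin 2),
                (QuotientGroup.mk (σ x * (g * x * g⁻¹)⁻¹) : FreeGroup (Fin 2) ⧸
                  ((commutator (FreeGroup (Fin 2))).lowerCentralSeries c ⊔ E)) ∈ K) ∧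
              ¬ (∃ g : FreeGroup (Fin 2), ∀ x : FreeGroup (Fin 2),
                (QuotientGroup.mk (σ x * (g * x * g⁻¹)⁻¹) : FreeGroup (Fin 2) ⧸
                  ((commutator (FreeGroup (Fin 2))).lowerCentralSeries (c + 1) ⊔ E)) ∈ K')) := by
  intro E _ hE c hc
  obtain ⟨c, rfl⟩ := Nat.exists_eq_add_of_le' hc
  constructor
  · intro K h1 h2
    obtain ⟨K', a1, a2, a3⟩ := mono_step _ (D F (c + 1 + 1) ⊔ E)
      (sup_le_sup_right (D_succ_le (c + 1)) E) K h1 h2
    exact ⟨K', a1, a2, fun σ ⟨g, hg⟩ => ⟨g, fun x => a3 _ (hg x)⟩⟩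
  · obtain ⟨K₀, a1, a2, a3⟩ := strict_step c
    obtain ⟨K', b1, b2, b3⟩ := mono_step _ (D F (c + 1 + 1) ⊔ E) (sup_le_sup_left hE _) K₀ a1 a2
    refine ⟨K', b1, b2, fun K h1 h2 => ?_⟩
    obtain ⟨K₁, c1, c2, c3⟩ := mono_step _ (D F (c + 1)) le_sup_left K h1 h2
    obtain ⟨σ, ⟨g, hg⟩, hn⟩ := a3 K₁ c1 c2
    exact ⟨σ, ⟨g, fun x => c3 _ (hg x)⟩, fun ⟨g', hg'⟩ => hn ⟨g', fun x => b3 _ (hg' x)⟩⟩

end Pool.Agent.Results.MP_6c678b_al.NilChain
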