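import Pool.Agent.Mg.F6c678b.G1270ea

set_option autoImplicit false

namespace Pool.Agent.Results.MP_6c678b_al.NilSup

open Pool.Agent.MP_6c678b_al.Nil

/-- One congruence subgroup for the free solvable group `F / F'''` of rank two contains no
congruence subgroup for any free nilpotent-by-abelian group `F / γ_{c+1}(F')`. -/
theorem result :
    ∃ K' : Subgroup (FreeGroup (Fin 2) ⧸ derivedSeries (FreeGroup (Fin 2)) 3),
      K'.Characteristic ∧ K'.FiniteIndex ∧
      ∀ (c : ℕ) (K : Subgroup (FreeGroup (Fin 2) ⧸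
          (commutator (FreeGroup (Fin 2))).lowerCentralSeries c)),
        K.Characteristic → K.FiniteIndex →
        ∃ σ : MulAut (FreeGroup (Fin 2)),
          (∃ g : FreeGroup (Fin 2), ∀ x : FreeGroup (Fin 2),
            (QuotientGroup.mk (σ x * (g * x * g⁻¹)⁻¹) : FreeGroup (Fin 2) ⧸
              (commutator (FreeGroup (Fin 2))).lowerCentralSeries c) ∈ K) ∧
          ¬ (∃ g : FreeGroup (Fin 2), ∀ x : FreeGroup (Fin 2),
            (QuotientGroup.mk (σ x * (g * x * g⁻¹)⁻¹) :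
              FreeGroup (Fin 2) ⧸ derivedSeries (FreeGroup (Fin 2)) 3) ∈ K') := by
  obtain ⟨K', a1, a2, a3⟩ := uniform_step
  refine ⟨K', a1, a2, fun c K h1 h2 => ?_⟩
  obtain ⟨K₁, c1, c2, c3⟩ := mono_step _ (D F (c + 1)) (D_succ_le c) K h1 h2
  obtain ⟨σ, ⟨g, hg⟩, hn⟩ := a3 c K₁ c1 c2
  exact ⟨σ, ⟨g, fun x => c3 _ (hg x)⟩, hn⟩

end Pool.Agent.Results.MP_6c678b_al.NilSup
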