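import Pool.Agent.MP_6c678b_al.RkMain

set_option autoImplicit false

namespace Pool.Agent.Results.MP_6c678b_al.RankTwo

/-- Every homomorphism from a group of integer matrices containing the squares of the two
elementary matrices to a section of `GL₂` of a finite commutative ring has a kernel that contains
a congruence subgroup coming from `F / F'''`. -/
theorem result :
    ∀ (R : Type) [CommRing R] [Finite R] (Q : Type) [Group Q]
      (H : Subgroup (GL (Fin 2) R)) (π : H →* Q), Function.Surjective π →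
      ∀ Γ : Subgroup (GL (Fin 2) ℤ),
        (∀ M : GL (Fin 2) ℤ, M.val = !![1, 2; 0, 1] ∨ M.val = !![1, 0; 2, 1] → M ∈ Γ) →
        ∀ ρ : Γ →* Q,
          ∃ K : Subgroup (FreeGroup (Fin 2) ⧸ derivedSeries (FreeGroup (Fin 2)) 3),
            K.Characteristic ∧ K.FiniteIndex ∧
            ∀ M : GL (Fin 2) ℤ,
              (∀ σ : MulAut (FreeGroup (Fin 2)),
                (∀ j, Abelianization.of (σ (FreeGroup.of j)) =
                  ∏ i, Abelianization.of (FreeGroup.of i : FreeGroup (Fin 2)) ^ M.val i j) →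
                ∃ g : FreeGroup (Fin 2), ∀ x : FreeGroup (Fin 2),
                  (QuotientGroup.mk (σ x * (g * x * g⁻¹)⁻¹) :
                    FreeGroup (Fin 2) ⧸ derivedSeries (FreeGroup (Fin 2)) 3) ∈ K) →
              ∃ h : M ∈ Γ, ρ ⟨M, h⟩ = 1 :=
  fun _ _ _ _ _ H π hπ Γ hΓ ρ => Pool.Agent.MP_6c678b_al.Rk.main H π hπ Γ hΓ ρ

end Pool.Agent.Results.MP_6c678b_al.RankTwo
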